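import Mathlib

namespace Pool.Agent.Results.MP_f3603a_co.Full

open Finset Classical

/-- `D` is an orientation of `G` -/
def IsOrient {V : Type} (G : SimpleGraph V) (D : V → V → Prop) : Prop :=
  ∀ u v, (G.Adj u v ↔ D u v ∨ D v u) ∧ ¬ (D u v ∧ D v u)

/-- number of `D`-descents -/
noncomputable def des {V : Type} [Fintype V] {m : ℕ} (D : V → V → Prop) (σ : V ≃ Fin m) : ℕ :=
  (univ.filter fun p : V × V => D p.1 p.2 ∧ σ p.2 < σ p.1).card

noncomputable def B {V : Type} [Fintype V] (m : ℕ) (D : V → V → Prop) (t : ℤ) : ℤ :=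
  ∑ σ : V ≃ Fin m, t ^ des D σ

/-- the Eulerian polynomial of the digraph `D`, evaluated at `t` -/
noncomputable def A {V : Type} [Fintype V] (D : V → V → Prop) (t : ℤ) : ℤ :=
  B (Fintype.card V) D t

section
variable {V : Type} [Fintype V] {G : SimpleGraph V} {D : V → V → Prop}

theorem half (hD : IsOrient G D) (P : V → V → Prop) (hP : ∀ u v, G.Adj u v → P u v → P v u) :
    2 * (univ.filter fun p : V × V => D p.1 p.2 ∧ P p.1 p.2).card =
      (univ.filter fun p : V × V => G.Adj p.1 p.2 ∧ P p.1 p.2).card := by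
  have e : (univ.filter fun p : V × V => D p.2 p.1 ∧ P p.1 p.2).card =
      (univ.filter fun p : V × V => D p.1 p.2 ∧ P p.1 p.2).card := by
    refine card_bij' (fun p _ => p.swap) (fun p _ => p.swap) ?_ ?_ (by simp) (by simp)
    · intro p hp
      simp only [mem_filter, mem_univ, true_and, Prod.fst_swap, Prod.snd_swap] at hp ⊢
      exact ⟨hp.1, hP _ _ ((hD _ _).1.2 (Or.inr hp.1)) hp.2⟩
    · intro p hp
      simp only [mem_filter, mem_univ, true_and, Prod.fst_swap, Prod.snd_swap] at hp ⊢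
      exact ⟨hp.1, hP _ _ ((hD _ _).1.2 (Or.inl hp.1)) hp.2⟩
  rw [two_mul]
  nth_rewrite 2 [← e]
  rw [← card_union_of_disjoint]
  · congr 1
    ext p
    simp only [mem_union, mem_filter, mem_univ, true_and, (hD p.1 p.2).1]
    tauto
  · rw [disjoint_filter]
    intro p _ h1 h2
    exact (hD p.1 p.2).2 ⟨h1.1, h2.1⟩

/-- the two labelings disagree on the pair -/
def dis {m : ℕ} (σ τ : V ≃ Fin m) (u v : V) : Prop := ¬ (σ v < σ u ↔ τ v < τ u)

omit [Fintype V] in
theorem dis_symm {m : ℕ} (σ τ : V ≃ Fin m) (u v : V) (h : G.Adj u v) (g : dis σ τ u v) :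
    dis σ τ v u := by
  have h1 : σ u ≠ σ v := σ.injective.ne h.ne
  have h2 : τ u ≠ τ v := τ.injective.ne h.ne
  unfold dis at *
  have := Fin.val_ne_of_ne h1
  have := Fin.val_ne_of_ne h2
  simp only [Fin.lt_def] at *
  omega

theorem sgn {m : ℕ} (σ τ : V ≃ Fin m) : (-1 : ℤ) ^ des D σ = (-1) ^ des D τ *
    (-1) ^ (univ.filter fun p : V × V => D p.1 p.2 ∧ dis σ τ p.1 p.2).card := by
  unfold des
  simp only [card_filter, ← prod_pow_eq_pow_sum, ← prod_mul_distrib]
  refine prod_congr rfl fun p _ => ?_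
  unfold dis
  by_cases D p.1 p.2 <;> by_cases σ p.2 < σ p.1 <;> by_cases τ p.2 < τ p.1 <;> simp [*]

theorem indep {E : V → V → Prop} (hD : IsOrient G D) (hE : IsOrient G E) (m : ℕ) :
    |B m D (-1)| = |B m E (-1)| := by
  by_cases h : Nonempty (V ≃ Fin m)
  · obtain ⟨τ⟩ := h
    unfold B
    rw [sum_congr rfl fun σ _ => sgn (D := D) σ τ, sum_congr rfl fun σ _ => sgn (D := E) σ τ]
    simp only [← mul_sum, abs_mul, abs_pow, abs_neg, abs_one, one_pow, one_mul]
    congr 1
    refine sum_congr rfl fun σ _ => ?_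
    have h1 := half hD (dis σ τ) (dis_symm σ τ)
    have h2 := half hE (dis σ τ) (dis_symm σ τ)
    congr 1
    omega
  · have : IsEmpty (V ≃ Fin m) := not_nonempty_iff.1 h
    simp [B]

theorem rot (hD : IsOrient G D) (hG : ∀ v, Even (G.degree v)) {m : ℕ} (σ : V ≃ Fin (m + 1)) :
    (-1 : ℤ) ^ des D (σ.trans (finRotate (m + 1))) = (-1) ^ des D σ := by
  rw [sgn _ σ]
  set t := σ.symm (Fin.last m) with ht
  have key : ∀ u v, G.Adj u v → (dis (σ.trans (finRotate (m + 1))) σ u v ↔ u = t ∨ v = t) := by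
    intro u v h
    have h1 := Fin.val_ne_of_ne (σ.injective.ne h.ne)
    simp only [dis, Equiv.trans_apply, finRotate_apply, ht, Equiv.eq_symm_apply, Fin.lt_def,
      Fin.val_add_one, Fin.ext_iff, Fin.val_last]
    have := (σ u).2
    have := (σ v).2
    split_ifs <;> omega
  have h1 := half hD _ (dis_symm (σ.trans (finRotate (m + 1))) σ)
  have h2 : (univ.filter fun p : V × V => G.Adj p.1 p.2 ∧
      dis (σ.trans (finRotate (m + 1))) σ p.1 p.2) =
      (G.neighborFinset t).image (fun w => (t, w)) ∪ (G.neighborFinset t).image (fun w => (w, t)) := by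
    ext ⟨u, v⟩
    simp only [mem_filter, mem_univ, true_and, mem_union, mem_image, SimpleGraph.mem_neighborFinset,
      Prod.mk.injEq]
    constructor
    · rintro ⟨h, g⟩
      rcases (key u v h).1 g with rfl | rfl
      · exact Or.inl ⟨v, h, rfl, rfl⟩
      · exact Or.inr ⟨u, h.symm, rfl, rfl⟩
    · rintro (⟨w, h, rfl, rfl⟩ | ⟨w, h, rfl, rfl⟩)
      · exact ⟨h, (key _ _ h).2 (Or.inl rfl)⟩
      · exact ⟨h.symm, (key _ _ h.symm).2 (Or.inr rfl)⟩
  rw [h2, card_union_of_disjoint, card_image_of_injective, card_image_of_injective,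
    SimpleGraph.card_neighborFinset_eq_degree] at h1
  · rw [show (univ.filter fun p : V × V => D p.1 p.2 ∧
      dis (σ.trans (finRotate (m + 1))) σ p.1 p.2).card = G.degree t by omega, (hG t).neg_one_pow,
      mul_one]
  · intro a b h; simpa using h
  · intro a b h; simpa using h
  · rw [disjoint_left]
    intro p h g
    simp only [mem_image, SimpleGraph.mem_neighborFinset] at h g
    obtain ⟨a, ha, rfl⟩ := h
    obtain ⟨b, _, e⟩ := g
    exact ha.ne (congrArg Prod.snd e)

/-- signed count of labelings giving `v` the label `i` -/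
noncomputable def T (m : ℕ) (D : V → V → Prop) (v : V) (i : Fin (m + 1)) : ℤ :=
  ∑ σ : V ≃ Fin (m + 1) with σ v = i, (-1) ^ des D σ

theorem T_succ (hD : IsOrient G D) (hG : ∀ v, Even (G.degree v)) (m : ℕ) (v : V)
    (i : Fin (m + 1)) : T m D v (i + 1) = T m D v i := by
  symm
  refine sum_bij' (fun σ _ => σ.trans (finRotate (m + 1)))
    (fun σ _ => σ.trans (finRotate (m + 1)).symm) ?_ ?_ ?_ ?_ ?_
  · intro σ h
    simp only [mem_filter, mem_univ, true_and] at h ⊢
    simp [h]
  · intro σ h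
    simp only [mem_filter, mem_univ, true_and] at h ⊢
    rw [Equiv.trans_apply, h, Equiv.symm_apply_eq]
    simp
  · intro σ _; ext x; simp
  · intro σ _; ext x; simp
  · intro σ _; exact (rot hD hG σ).symm

theorem T_eq (hD : IsOrient G D) (hG : ∀ v, Even (G.degree v)) (m : ℕ) (v : V)
    (i : Fin (m + 1)) : T m D v i = T m D v 0 := by
  induction i using Fin.induction with
  | zero => rfl
  | succ i ih => rw [← Fin.coeSucc_eq_succ, T_succ hD hG, ih]

theorem B_eq (hD : IsOrient G D) (hG : ∀ v, Even (G.degree v)) (m : ℕ) (v : V) :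
    B (m + 1) D (-1) = (m + 1) * T m D v (Fin.last m) := by
  rw [B, ← sum_fiberwise univ fun σ => σ v]
  have : ∀ i, T m D v i = T m D v (Fin.last m) := fun i => by
    rw [T_eq hD hG m v i, T_eq hD hG m v (Fin.last m)]
  change ∑ i, T m D v i = _
  simp [this]

/-- extend a labeling of `V - v` by giving `v` the top label -/
noncomputable def up {m : ℕ} (v : V) (τ : {w // w ≠ v} ≃ Fin m) : V ≃ Fin (m + 1) :=
  (Equiv.optionSubtypeNe v).symm.trans (τ.optionCongr.trans finSuccEquivLast.symm)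

omit [Fintype V] in
theorem up_v {m : ℕ} (v : V) (τ : {w // w ≠ v} ≃ Fin m) : up v τ v = Fin.last m := by
  simp [up]

omit [Fintype V] in
theorem up_w {m : ℕ} (v : V) (τ : {w // w ≠ v} ≃ Fin m) (w : {w // w ≠ v}) :
    up v τ w = (τ w).castSucc := by
  simp [up, Equiv.optionSubtypeNe_symm_of_ne w.2]

theorem T_last (hD : IsOrient G D) (m : ℕ) (v : V) :
    |T m D v (Fin.last m)| = |B m (fun a b : {w // w ≠ v} => D a b) (-1)| := by
  have hd : ∀ τ : {w // w ≠ v} ≃ Fin m, des D (up v τ) =
      (univ.filter fun w => D v w).card + des (fun a b : {w // w ≠ v} => D a b) τ := by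
    intro τ
    unfold des
    rw [← card_image_of_injective (univ.filter fun w => D v w) (Prod.mk_right_injective v),
      ← card_image_of_injective (univ.filter fun p : {w // w ≠ v} × {w // w ≠ v} => _)
        (Subtype.val_injective.prodMap Subtype.val_injective), ← card_union_of_disjoint]
    · congr 1
      ext ⟨a, b⟩
      simp only [mem_filter, mem_univ, true_and, mem_union, mem_image, Prod.mk.injEq, Prod.exists,
        Prod.map_apply]
      constructor
      · rintro ⟨h, g⟩
        have hb : b ≠ v := by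
          rintro rfl
          rw [up_v] at g
          exact absurd g (not_lt.2 (Fin.le_last _))
        by_cases ha : a = v
        · subst ha; exact Or.inl ⟨b, h, rfl, rfl⟩
        · refine Or.inr ⟨⟨a, ha⟩, ⟨b, hb⟩, ⟨h, ?_⟩, rfl, rfl⟩
          rwa [up_w v τ ⟨a, ha⟩, up_w v τ ⟨b, hb⟩, Fin.castSucc_lt_castSucc_iff] at g
      · rintro (⟨w, h, rfl, rfl⟩ | ⟨a, b, ⟨h, g⟩, rfl, rfl⟩)
        · have hw : w ≠ v := ((hD _ _).1.2 (Or.inl h)).ne'
          refine ⟨h, ?_⟩
          rw [up_v, up_w v τ ⟨w, hw⟩]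
          exact Fin.castSucc_lt_last _
        · exact ⟨h, by rwa [up_w, up_w, Fin.castSucc_lt_castSucc_iff]⟩
    · rw [disjoint_left]
      intro p h g
      simp only [mem_image] at h g
      obtain ⟨a, _, rfl⟩ := h
      obtain ⟨b, _, e⟩ := g
      exact b.1.2 (congrArg Prod.fst e)
  have : T m D v (Fin.last m) = ∑ τ : {w // w ≠ v} ≃ Fin m, (-1) ^ des D (up v τ) := by
    symm
    refine sum_bij (fun τ _ => up v τ) (by simp [up_v]) ?_ ?_ (fun _ _ => rfl)
    · intro τ _ τ' _ h
      ext w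
      have := up_w v τ w
      rw [h, up_w] at this
      rw [Fin.castSucc_injective _ this]
    · intro σ h
      simp only [mem_filter, mem_univ, true_and] at h
      refine ⟨(σ.subtypeEquiv fun a => ?_).trans (finSuccAboveEquiv (Fin.last m)).symm,
        mem_univ _, ?_⟩
      · rw [← h, σ.injective.ne_iff]
      · ext w : 1
        by_cases hw : w = v
        · rw [hw, up_v, h]
        · rw [up_w v _ ⟨w, hw⟩, ← Fin.succAbove_last_apply]
          exact congrArg Subtype.val ((finSuccAboveEquiv (Fin.last m)).apply_symm_apply _)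
  simp only [this, hd, pow_add, ← mul_sum, abs_mul, abs_pow, abs_neg, abs_one, one_pow, one_mul, B]
  congr
  exact Subsingleton.elim _ _

end

theorem result {V : Type} [Fintype V] [Nonempty V] (G : SimpleGraph V)
    (hG : ∀ v, Even (G.degree v)) (D : V → V → Prop) (hD : IsOrient G D)
    (E : ∀ v, {w // w ≠ v} → {w // w ≠ v} → Prop)
    (hE : ∀ v, IsOrient (G.induce {w | w ≠ v}) (E v)) :
    |A D (-1)| = ∑ v, |A (E v) (-1)| ∧
      ∀ v, |A D (-1)| = Fintype.card V * |A (E v) (-1)| := by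
  obtain ⟨m, hm⟩ : ∃ m, Fintype.card V = m + 1 := ⟨_, (Nat.succ_pred Fintype.card_ne_zero).symm⟩
  have h : ∀ v, |A D (-1)| = Fintype.card V * |A (E v) (-1)| := by
    intro v
    have c : Fintype.card {w // w ≠ v} = m := by simp [hm]
    have i := indep (V := {w // w ≠ v}) (G := G.induce {w | w ≠ v}) (fun a b => hD a b) (hE v) m
    rw [A, A, hm, c, B_eq hD hG m v, abs_mul, T_last hD, i]
    congr 1
  refine ⟨?_, h⟩
  have p : (Fintype.card V : ℤ) ≠ 0 := by simp
  apply mul_left_cancel₀ p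
  simp [mul_sum, ← h]

end Pool.Agent.Results.MP_f3603a_co.Full
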